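import Pool.Agent.V11129.TutteComp

/-!
# The Tutte polynomial does not determine outerplanarity

Two connected multigraphs with 6 vertices and 10 edges with the same Tutte polynomial; the first is
outerplanar, the second is not.

The first is a 4-cycle `0 1 2 3` in which the edge `01` is replaced by two parallel edges and a path
of length two, `12` by an edge and a path of length two, and `23` by two parallel edges. The second
is a 4-cycle `0 1 2 3` in which `01` is replaced by an edge, a path of length two and a path of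
length two one edge of which is doubled, and `12` is replaced by two parallel edges.
-/

set_option autoImplicit false

namespace Pool.Agent.Results.MP_f03b0a_co.NotOuterplanar

open Finset Pool.Agent.V11129

universe u v

/-- Outerplanarity: the vertices can be placed at distinct points of a circle, in the order given
by the bijection `p` with `0, 1, ..., |V| - 1`, so that no two edges, drawn as chords inside the
circle, cross: there are no edges `ab`, `cd` with `p a < p c < p b < p d`. (Loops and parallel edges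
never matter.) -/
def Outerplanar {V : Type u} {E : Type v} [Fintype V] (ends : E → Sym2 V) : Prop :=
  ∃ p : V ≃ Fin (Fintype.card V), ∀ (e f : E) (a b c d : V), ends e = s(a, b) → ends f = s(c, d) →
    ¬ (p a < p c ∧ p c < p b ∧ p b < p d)

/-- The outerplanar multigraph. -/
def P : Fin 10 → Fin 6 × Fin 6 :=
  ![(0, 1), (0, 1), (0, 4), (4, 1), (1, 2), (1, 5), (5, 2), (2, 3), (2, 3), (3, 0)]

/-- The multigraph that is not outerplanar. -/
def Q : Fin 10 → Fin 6 × Fin 6 :=
  ![(0, 1), (0, 4), (4, 1), (0, 5), (0, 5), (5, 1), (1, 2), (1, 2), (2, 3), (3, 0)]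

theorem spanning_univ (R : Fin 10 → Fin 6 × Fin 6) :
    spanningSub (endsOf R) univ = listGraph ((List.finRange 10).map R) := by
  rw [← spanningSub_endsOf]
  congr 1

theorem connP : (spanningSub (endsOf P) univ).Connected := by
  rw [spanning_univ, connected_iff]
  decide +kernel

theorem connQ : (spanningSub (endsOf Q) univ).Connected := by
  rw [spanning_univ, connected_iff]
  decide +kernel

theorem rk_eq (R : Fin 10 → Fin 6 × Fin 6) (h : (spanningSub (endsOf R) univ).Connected) :
    rk (endsOf R) univ = 5 := by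
  rw [rk, Fintype.card_fin]
  have : Nat.card (spanningSub (endsOf R) univ).ConnectedComponent = 1 := by
    rw [Nat.card_eq_one_iff_unique]
    exact ⟨h.preconnected.subsingleton_connectedComponent, ⟨SimpleGraph.connectedComponentMk _ 0⟩⟩
  rw [this]

theorem gen_eq : runLab (2 ^ 14) 6
      ((List.finRange 10).map fun e => (((P e).1 : ℕ), ((P e).2 : ℕ))) (List.range 6) 0 =
    runLab (2 ^ 14) 6
      ((List.finRange 10).map fun e => (((Q e).1 : ℕ), ((Q e).2 : ℕ))) (List.range 6) 0 := by
  have e1 : ((List.finRange 10).map fun e => (((P e).1 : ℕ), ((P e).2 : ℕ))) =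
      [(0, 1), (0, 1), (0, 4), (4, 1), (1, 2), (1, 5), (5, 2), (2, 3), (2, 3), (3, 0)] := by
    decide +kernel
  have e2 : ((List.finRange 10).map fun e => (((Q e).1 : ℕ), ((Q e).2 : ℕ))) =
      [(0, 1), (0, 4), (4, 1), (0, 5), (0, 5), (5, 1), (1, 2), (1, 2), (2, 3), (3, 0)] := by
    decide +kernel
  have e3 : List.range 6 = [0, 1, 2, 3, 4, 5] := by decide
  rw [e1, e2, e3]
  apply Nat.eq_of_beq_eq_true
  decide +kernel

/-- The pattern forbidden in an outerplanar drawing. -/
def bad (p : Fin 6 → Fin 6) (x y : Fin 6 × Fin 6) : Prop :=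
  p x.1 < p y.1 ∧ p y.1 < p x.2 ∧ p x.2 < p y.2

instance (p : Fin 6 → Fin 6) (x y : Fin 6 × Fin 6) : Decidable (bad p x y) :=
  inferInstanceAs (Decidable (_ ∧ _ ∧ _))

/-- The position of the vertices of the outerplanar drawing. -/
def posP : Fin 6 ≃ Fin 6 where
  toFun := ![0, 2, 4, 5, 1, 3]
  invFun := ![0, 4, 1, 5, 2, 3]
  left_inv := by decide
  right_inv := by decide

theorem checkP : ∀ e f : Fin 10, ¬ bad posP (P e) (P f) ∧ ¬ bad posP (P e).swap (P f) ∧
    ¬ bad posP (P e) (P f).swap ∧ ¬ bad posP (P e).swap (P f).swap := by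
  decide +kernel

theorem outerP : Outerplanar (endsOf P) := by
  refine ⟨posP, ?_⟩
  have key : ∀ (e f : Fin 10) (a b c d : Fin 6), endsOf P e = s(a, b) → endsOf P f = s(c, d) →
      ¬ (posP a < posP c ∧ posP c < posP b ∧ posP b < posP d) := by
    intro e f a b c d h1 h2
    obtain ⟨h3, h4, h5, h6⟩ := checkP e f
    unfold endsOf at h1 h2
    rw [Sym2.eq_iff] at h1 h2
    rcases h1 with ⟨rfl, rfl⟩ | ⟨rfl, rfl⟩ <;> rcases h2 with ⟨rfl, rfl⟩ | ⟨rfl, rfl⟩
    · exact h3
    · exact h5
    · exact h4
    · exact h6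
  exact key

theorem checkQ : ∀ p : Equiv.Perm (Fin 6), ∃ e f : Fin 10, bad p (Q e) (Q f) ∨
    bad p (Q e).swap (Q f) ∨ bad p (Q e) (Q f).swap ∨ bad p (Q e).swap (Q f).swap := by
  decide +kernel

theorem not_outerQ : ¬ Outerplanar (endsOf Q) := by
  rintro ⟨p, hp⟩
  have key : ∀ p : Fin 6 ≃ Fin 6, ¬ ∀ (e f : Fin 10) (a b c d : Fin 6), endsOf Q e = s(a, b) →
      endsOf Q f = s(c, d) → ¬ (p a < p c ∧ p c < p b ∧ p b < p d) := by
    intro p hp
    obtain ⟨e, f, h | h | h | h⟩ := checkQ p
    · exact hp e f _ _ _ _ rfl rfl h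
    · exact hp e f _ _ _ _ Sym2.eq_swap rfl h
    · exact hp e f _ _ _ _ rfl Sym2.eq_swap h
    · exact hp e f _ _ _ _ Sym2.eq_swap Sym2.eq_swap h
  exact key p hp

/-- **Q1 of MP_f03b0a_co, negated form.** There are (connected) Tutte-equivalent multigraphs `G`,
`H` such that `G` is outerplanar and `H` is not. -/
theorem result : ∃ G H : Fin 10 → Sym2 (Fin 6),
    (spanningSub G univ).Connected ∧ (spanningSub H univ).Connected ∧
      tuttePoly G = tuttePoly H ∧ Outerplanar G ∧ ¬ Outerplanar H :=
  ⟨endsOf P, endsOf Q, connP, connQ,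
    tuttePoly_eq P Q (2 ^ 14) (by norm_num) (by norm_num)
      ((rk_eq P connP).trans (rk_eq Q connQ).symm) gen_eq, outerP, not_outerQ⟩

end Pool.Agent.Results.MP_f03b0a_co.NotOuterplanar
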