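import Pool.Agent.V11129.TutteComp

/-!
# The Tutte polynomial does not determine 3-connectivity

Two connected multigraphs with 6 vertices and 13 edges with the same Tutte polynomial; the first is
3-connected, while the second has a vertex with only two neighbours.
-/

set_option autoImplicit false

namespace Pool.Agent.Results.MP_f03b0a_co.NotThreeConnected

open Finset Pool.Agent.V11129

universe u v

/-- A multigraph is 3-connected if it has at least 4 vertices and stays connected after deleting any
set of at most 2 vertices. -/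
def ThreeConnected {V : Type u} {E : Type v} [Fintype V] [Fintype E] (ends : E → Sym2 V) : Prop :=
  4 ≤ Fintype.card V ∧
    ∀ S : Finset V, S.card ≤ 2 → ((spanningSub ends univ).induce {v | v ∉ S}).Connected

/-- The 3-connected multigraph. -/
def P : Fin 13 → Fin 6 × Fin 6 :=
  ![(0, 1), (0, 2), (0, 2), (0, 3), (0, 4), (0, 5), (1, 2), (1, 3), (1, 3), (1, 4), (2, 4), (3, 5),
    (4, 5)]

/-- The multigraph that is not 3-connected. -/
def Q : Fin 13 → Fin 6 × Fin 6 :=
  ![(0, 1), (0, 1), (0, 2), (0, 3), (0, 4), (1, 2), (1, 3), (1, 4), (2, 3), (2, 5), (2, 5), (3, 4),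
    (4, 5)]

theorem spanning_univ (R : Fin 13 → Fin 6 × Fin 6) :
    spanningSub (endsOf R) univ = listGraph ((List.finRange 13).map R) := by
  rw [← spanningSub_endsOf]
  congr 1

instance decNotMem (S : Finset (Fin 6)) : DecidablePred (· ∈ ({v | v ∉ S} : Set (Fin 6))) :=
  fun v => inferInstanceAs (Decidable (v ∉ S))

theorem connP : (spanningSub (endsOf P) univ).Connected := by
  rw [spanning_univ, connected_iff]
  decide +kernel

theorem connQ : (spanningSub (endsOf Q) univ).Connected := by
  rw [spanning_univ, connected_iff]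
  decide +kernel

theorem threeP : ThreeConnected (endsOf P) := by
  refine ⟨by simp, fun S hS => ?_⟩
  rw [spanning_univ, induce_connected_iff]
  revert S
  decide +kernel

theorem not_threeQ : ¬ ThreeConnected (endsOf Q) := by
  rintro ⟨-, h⟩
  have h2 := h {2, 4} (by decide)
  rw [spanning_univ, induce_connected_iff] at h2
  have h3 := h2.2 0 5 (by decide) (by decide)
  revert h3
  decide +kernel

theorem rk_eq (R : Fin 13 → Fin 6 × Fin 6) (h : (spanningSub (endsOf R) univ).Connected) :
    rk (endsOf R) univ = 5 := by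
  rw [rk, Fintype.card_fin]
  have : Nat.card (spanningSub (endsOf R) univ).ConnectedComponent = 1 := by
    rw [Nat.card_eq_one_iff_unique]
    exact ⟨h.preconnected.subsingleton_connectedComponent, ⟨SimpleGraph.connectedComponentMk _ 0⟩⟩
  rw [this]

theorem gen_eq : runLab (2 ^ 14) 6
      ((List.finRange 13).map fun e => (((P e).1 : ℕ), ((P e).2 : ℕ))) (List.range 6) 0 =
    runLab (2 ^ 14) 6
      ((List.finRange 13).map fun e => (((Q e).1 : ℕ), ((Q e).2 : ℕ))) (List.range 6) 0 := by
  have e1 : ((List.finRange 13).map fun e => (((P e).1 : ℕ), ((P e).2 : ℕ))) =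
      [(0, 1), (0, 2), (0, 2), (0, 3), (0, 4), (0, 5), (1, 2), (1, 3), (1, 3), (1, 4), (2, 4),
        (3, 5), (4, 5)] := by decide +kernel
  have e2 : ((List.finRange 13).map fun e => (((Q e).1 : ℕ), ((Q e).2 : ℕ))) =
      [(0, 1), (0, 1), (0, 2), (0, 3), (0, 4), (1, 2), (1, 3), (1, 4), (2, 3), (2, 5), (2, 5),
        (3, 4), (4, 5)] := by decide +kernel
  have e3 : List.range 6 = [0, 1, 2, 3, 4, 5] := by decide
  rw [e1, e2, e3]
  apply Nat.eq_of_beq_eq_true
  decide +kernel

/-- **Q2 of MP_f03b0a_co, negated form.** There are connected Tutte-equivalent multigraphs `G`, `H`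
such that `G` is 3-connected and `H` is not. -/
theorem result : ∃ G H : Fin 13 → Sym2 (Fin 6),
    (spanningSub G univ).Connected ∧ (spanningSub H univ).Connected ∧
      tuttePoly G = tuttePoly H ∧ ThreeConnected G ∧ ¬ ThreeConnected H :=
  ⟨endsOf P, endsOf Q, connP, connQ,
    tuttePoly_eq P Q (2 ^ 14) (by norm_num) (by norm_num) ((rk_eq P connP).trans (rk_eq Q connQ).symm)
      gen_eq, threeP, not_threeQ⟩

end Pool.Agent.Results.MP_f03b0a_co.NotThreeConnected
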